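import Pool.Agent.Work.MP_afe918_an.All

/-!
MP_afe918_an, Q1: doubly periodic W-condensed vortices.

The equation `Δu = -2 mW² - 4 e² exp u + 4π ∑ n_l δ_(p_l)` on the torus `ℂ / (aℤ + ibℤ)` has a
solution if and only if `mW² < 2πN / (ab)`, `N = ∑ n_l`, for every configuration of the vortices.
-/

open Filter Topology MeasureTheory
open scoped ContDiff

namespace Pool.Agent.Results.MP_afe918_an.DoublyPeriodicVortices

/-- `z` is a point of the lattice `aℤ + ibℤ`. -/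
def InLattice (a b : ℝ) (z : ℂ) : Prop := ∃ j k : ℤ, z = j * a + k * b * Complex.I

/-- Doubly periodic functions, i.e. functions on the torus. -/
def DoublyPeriodic (a b : ℝ) (f : ℂ → ℝ) : Prop :=
  ∀ z, f (z + a) = f z ∧ f (z + b * Complex.I) = f z

/-- The period rectangle `[0, a) × [0, b)`. -/
def periodCell (a b : ℝ) : Set ℂ := {z | 0 ≤ z.re ∧ z.re < a ∧ 0 ≤ z.im ∧ z.im < b}

/-- `u` is a solution of `Δu = -2 mW² - 4 e² exp u + 4π ∑ n_l δ_(p_l)` on the torus: doubly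
periodic, smooth away from the points `p l`, `u - 2 n_l log |z - p l|` smooth near `p l`, and the
equation holds in the sense of distributions. -/
structure IsSolution {m : ℕ} (a b mW e : ℝ) (p : Fin m → ℂ) (n : Fin m → ℕ) (u : ℂ → ℝ) :
    Prop where
  periodic : DoublyPeriodic a b u
  smooth : ∀ z, (∀ l, ¬ InLattice a b (z - p l)) → ContDiffAt ℝ ∞ u z
  vortex : ∀ l, ∃ U : ℂ → ℝ, ContDiffAt ℝ ∞ U (p l) ∧
    ∀ᶠ z in 𝓝[≠] (p l), u z = 2 * n l * Real.log ‖z - p l‖ + U z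
  equation : ∀ φ : ℂ → ℝ, ContDiff ℝ ∞ φ → DoublyPeriodic a b φ →
    ∫ z in periodCell a b, u z * Laplacian.laplacian φ z =
      (∫ z in periodCell a b, (-2 * mW ^ 2 - 4 * e ^ 2 * Real.exp (u z)) * φ z) +
        4 * Real.pi * ∑ l, n l * φ (p l)

theorem result (a b mW e : ℝ) (ha : 0 < a) (hb : 0 < b) (hm : 0 < mW) (he : 0 < e) (m : ℕ)
    (p : Fin m → ℂ) (n : Fin m → ℕ) (hn : ∀ l, 0 < n l)
    (hp : ∀ l l', l ≠ l' → ¬ InLattice a b (p l - p l')) :
    (∃ u : ℂ → ℝ, IsSolution a b mW e p n u) ↔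
      mW ^ 2 < 2 * Real.pi * (∑ l, (n l : ℝ)) / (a * b) := by
  have h := Pool.Agent.Vx.main_all a b mW e ha hb hm he m p n hn hp
  have hN : ((Pool.Agent.Vx.Nv n : ℕ) : ℝ) = ∑ l, (n l : ℝ) := by
    unfold Pool.Agent.Vx.Nv
    push_cast
    rfl
  rw [hN] at h
  rw [← h]
  constructor
  · rintro ⟨u, hu⟩
    exact ⟨u, hu.periodic, hu.smooth, hu.vortex, hu.equation⟩
  · rintro ⟨u, hu⟩
    exact ⟨u, hu.per, hu.smooth, hu.sing, hu.eq⟩

end Pool.Agent.Results.MP_afe918_an.DoublyPeriodicVortices
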